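import Pool.Agent.H53.MC.Targets

/-!
# Few clauses cover few assignments
-/

namespace Pool.Agent.H41.MC

open Pool.Agent.H53.MC
open Finset

/-- an assignment which is prescribed on `k` coordinates is one of at most `2 ^ (n - k)` -/
theorem cap_one {n k : ℕ} (f : Fin k → Fin n) (hf : Function.Injective f) (s : Fin k → Bool) :
    (univ.filter fun x : Fin n → Bool => ∀ i, x (f i) = s i).card ≤ 2 ^ (n - k) := by
  classical
  let R : Finset (Fin n) := univ.image f
  have hR : R.card = k := by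
    rw [card_image_of_injective _ hf, card_univ, Fintype.card_fin]
  have hc : Fintype.card ({j : Fin n // j ∉ R} → Bool) = 2 ^ (n - k) := by
    rw [Fintype.card_fun, Fintype.card_bool, Fintype.card_subtype_compl, Fintype.card_fin]
    simp [hR]
  rw [← hc, ← card_univ]
  apply card_le_card_of_injOn (fun (x : Fin n → Bool) (j : {j : Fin n // j ∉ R}) => x j.1)
    (fun _ _ => mem_coe.2 (mem_univ _))
  intro x hx y hy hxy
  have hx' := (mem_filter.1 (mem_coe.1 hx)).2
  have hy' := (mem_filter.1 (mem_coe.1 hy)).2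
  funext j
  by_cases hj : j ∈ R
  · obtain ⟨i, _, hi⟩ := mem_image.1 hj
    rw [← hi, hx' i, hy' i]
  · exact congrFun hxy ⟨j, hj⟩

theorem pf_CAP : T_CAP := by
  intro n M k e q he T B hT hcov
  classical
  have h1 : B ⊆ T.biUnion fun c => univ.filter fun x : Fin n → Bool =>
      ∀ i, x (e c.1 i) = c.2 i := by
    intro x hx
    obtain ⟨c, hc, hv⟩ := hcov x hx
    exact mem_biUnion.2 ⟨c, hc, mem_filter.2 ⟨mem_univ _, hv⟩⟩
  calc B.card ≤ _ := card_le_card h1
    _ ≤ ∑ c ∈ T, (univ.filter fun x : Fin n → Bool => ∀ i, x (e c.1 i) = c.2 i).card :=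
        card_biUnion_le
    _ ≤ ∑ c ∈ T, 2 ^ (n - k) := sum_le_sum fun c _ => cap_one (e c.1) (he c.1) c.2
    _ = T.card * 2 ^ (n - k) := by rw [sum_const, smul_eq_mul]
    _ ≤ q * 2 ^ (n - k) := Nat.mul_le_mul_right _ hT

end Pool.Agent.H41.MC
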